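import Mathlib

set_option autoImplicit false

namespace Pool.Agent.H.MP_a24849_co

open Finset

/-- second-moment bound for a Sidon family of shifts -/
theorem sidon {Γ J : Type} [AddCommGroup Γ] [DecidableEq Γ] [DecidableEq J]
    (δ : J → Γ) (hinj : Function.Injective δ)
    (hs : ∀ j1 j2 j3 j4, j1 ≠ j2 → δ j1 - δ j2 = δ j3 - δ j4 → j1 = j3)
    (K : Finset J) (Z X : Finset Γ) :
    ((∑ z ∈ Z, (K.filter fun j => z + δ j ∈ X).card : ℕ) : ℝ) ^ 2 ≤
      Z.card * ((X.card : ℝ) ^ 2 + (∑ z ∈ Z, (K.filter fun j => z + δ j ∈ X).card : ℕ)) := by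
  set d : Γ → ℕ := fun z => (K.filter fun j => z + δ j ∈ X).card with hd
  have h1 : ∑ z ∈ Z, ((K.filter fun j => z + δ j ∈ X).offDiag).card ≤ X.card ^ 2 := by
    rw [← Finset.card_sigma, sq, ← Finset.card_product]
    refine Finset.card_le_card_of_injOn (fun w => (w.1 + δ w.2.1, w.1 + δ w.2.2)) ?_ ?_
    · rintro ⟨z, j1, j2⟩ hw
      simp only [coe_sigma, Set.mem_sigma_iff, mem_coe, mem_offDiag, mem_filter] at hw
      simp only [coe_product, Set.mem_prod, mem_coe]
      exact ⟨hw.2.1.2, hw.2.2.1.2⟩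
    · rintro ⟨z, j1, j2⟩ hw ⟨z', j3, j4⟩ _ he
      simp only [coe_sigma, Set.mem_sigma_iff, mem_coe, mem_offDiag, mem_filter] at hw
      simp only [Prod.mk.injEq] at he
      have e1 : j1 = j3 := hs j1 j2 j3 j4 hw.2.2.2 (by
        have a : δ j1 - δ j2 = (z + δ j1) - (z + δ j2) := by abel
        have b : δ j3 - δ j4 = (z' + δ j3) - (z' + δ j4) := by abel
        rw [a, b, he.1, he.2])
      subst e1
      have e2 : z = z' := add_right_cancel he.1
      subst e2
      have e3 : j2 = j4 := hinj (add_left_cancel he.2)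
      subst e3
      rfl
  have h2 : ∑ z ∈ Z, d z * d z ≤ X.card ^ 2 + ∑ z ∈ Z, d z := by
    have : ∑ z ∈ Z, d z * d z =
        ∑ z ∈ Z, ((K.filter fun j => z + δ j ∈ X).offDiag).card + ∑ z ∈ Z, d z := by
      rw [← Finset.sum_add_distrib]
      refine Finset.sum_congr rfl fun z _ => ?_
      rw [Finset.offDiag_card]
      have : d z ≤ d z * d z := Nat.le_mul_self _
      simp only [hd] at this ⊢
      omega
    omega
  have h3 := sq_sum_le_card_mul_sum_sq (s := Z) (f := fun z => (d z : ℝ))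
  have h2' : (∑ z ∈ Z, (d z : ℝ) ^ 2) ≤ (X.card : ℝ) ^ 2 + ((∑ z ∈ Z, d z : ℕ) : ℝ) := by
    have : ((∑ z ∈ Z, d z * d z : ℕ) : ℝ) ≤ ((X.card ^ 2 + ∑ z ∈ Z, d z : ℕ) : ℝ) := by
      exact_mod_cast h2
    push_cast at this ⊢
    simpa only [sq] using this
  have h4 : (Z.card : ℝ) * (∑ z ∈ Z, (d z : ℝ) ^ 2) ≤
      Z.card * ((X.card : ℝ) ^ 2 + ((∑ z ∈ Z, d z : ℕ) : ℝ)) :=
    mul_le_mul_of_nonneg_left h2' (Nat.cast_nonneg _)
  have h5 : ((∑ z ∈ Z, d z : ℕ) : ℝ) = ∑ z ∈ Z, (d z : ℝ) := by push_cast; rfl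
  calc ((∑ z ∈ Z, d z : ℕ) : ℝ) ^ 2 = (∑ z ∈ Z, (d z : ℝ)) ^ 2 := by rw [h5]
    _ ≤ _ := h3
    _ ≤ _ := h4

theorem numer (a k p y r m I : ℝ) (hk : 0 ≤ k) (ha : a = k + 1) (hy : 8 * (a + 1) * a ≤ y)
    (hp : 8 * (a + 1) * a ≤ p) (hm : p - a ≤ m) (hI : m * (y - k) ≤ I)
    (hr : r ≤ a * y) (hr2 : (a + 1) * r ≤ a * p ^ 2) (h : I ^ 2 ≤ r * (y ^ 2 + I)) : False := by
  have ha0 : 1 ≤ a := by linarith
  obtain ⟨e, he0, he1⟩ : ∃ e : ℝ, 0 < e ∧ e * (8 * (a + 1)) = 1 :=
    ⟨1 / (8 * (a + 1)), by positivity, by field_simp⟩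
  have he2 : e ≤ 1 / 16 := by nlinarith
  have hq : 0 < 8 * (a + 1) * a := by positivity
  have hy0 : 0 < y := by linarith
  have hp0 : 0 < p := by linarith
  have ea : e * (8 * (a + 1) * a) = a := by rw [← mul_assoc, he1, one_mul]
  have a1 : a ≤ e * y := by
    have := mul_le_mul_of_nonneg_left hy he0.le
    linarith
  have a2 : a ≤ e * p := by
    have := mul_le_mul_of_nonneg_left hp he0.le
    linarith
  have b1 : (1 - e) * y ≤ y - k := by linarith
  have b2 : (1 - e) * p ≤ m := by linarith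
  have c0 : 0 < p * y := by positivity
  obtain ⟨w, hw⟩ : ∃ w, w = p * y := ⟨_, rfl⟩
  have w0 : 0 < w := by rw [hw]; exact c0
  have e1 : 0 ≤ 1 - e := by linarith
  have c1 : (1 - 2 * e) * w ≤ I := by
    have h1 : ((1 - e) * p) * ((1 - e) * y) ≤ m * (y - k) :=
      mul_le_mul b2 b1 (by positivity) (le_trans (by positivity) b2)
    have h2 : ((1 - e) * p) * ((1 - e) * y) = (1 - 2 * e) * w + e * (e * w) := by
      rw [hw]; ring
    have h3 : 0 < e * (e * w) := by positivity
    linarith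
  have c2 : r ≤ e * w := by
    have := mul_le_mul_of_nonneg_right a2 hy0.le
    have h2 : e * p * y = e * w := by rw [hw]; ring
    linarith
  have c3 : (1 - 3 * e) * w ≤ I - r := by linarith
  have e2 : 0 ≤ 1 - 2 * e := by linarith
  have e3 : 0 ≤ 1 - 3 * e := by linarith
  have c4 : ((1 - 2 * e) * w) * ((1 - 3 * e) * w) ≤ I * (I - r) :=
    mul_le_mul c1 c3 (by positivity) (le_trans (by positivity) c1)
  have c5 : r ≤ (1 - 8 * e) * p ^ 2 := by
    have h0 : (a + 1) * (1 - 8 * e) = a := by linarith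
    have h1 : (a + 1) * r ≤ (a + 1) * ((1 - 8 * e) * p ^ 2) := by
      rw [← mul_assoc, h0]; exact hr2
    exact le_of_mul_le_mul_left h1 (by linarith)
  have c6 : r * y ^ 2 ≤ (1 - 8 * e) * w ^ 2 := by
    have := mul_le_mul_of_nonneg_right c5 (sq_nonneg y)
    have h2 : (1 - 8 * e) * p ^ 2 * y ^ 2 = (1 - 8 * e) * w ^ 2 := by rw [hw]; ring
    linarith
  have c7 : 0 < e * w ^ 2 := by positivity
  have c8 : 0 < e * (e * w ^ 2) := by positivity
  have c9 : ((1 - 2 * e) * w) * ((1 - 3 * e) * w) =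
      w ^ 2 - 5 * (e * w ^ 2) + 6 * (e * (e * w ^ 2)) := by ring
  have c10 : I * (I - r) = I ^ 2 - r * I := by ring
  have c11 : r * (y ^ 2 + I) = r * y ^ 2 + r * I := by ring
  have c12 : (1 - 8 * e) * w ^ 2 = w ^ 2 - 8 * (e * w ^ 2) := by ring
  linarith

/-- Rigidity: a near-perfect cover misses one of the code fibres. -/
theorem rigid {Γ J : Type} [AddCommGroup Γ] [Fintype Γ] [DecidableEq Γ] [Fintype J]
    [DecidableEq J] (k p : ℕ) (hΓ : Fintype.card Γ = p ^ 2) (hJ : p ≤ Fintype.card J + 1)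
    (hp : 8 * (k + 2) * (k + 1) * (k + 1) + k + 1 < p)
    (σ : Fin (k + 2) → J → Γ)
    (hinj : ∀ i i', i ≠ i' → Function.Injective fun j => σ i j - σ i' j)
    (hs : ∀ i i', i ≠ i' → ∀ j1 j2 j3 j4, j1 ≠ j2 →
      (σ i j1 - σ i' j1) - (σ i j2 - σ i' j2) = (σ i j3 - σ i' j3) - (σ i j4 - σ i' j4) → j1 = j3)
    (X : Fin (k + 2) → Finset Γ) (Y : J → Finset Γ)
    (hc : ∀ j g, g ∈ Y j ∨ ∃ i, g + σ i j ∈ X i)
    (ht : ∑ i, (X i).card + ∑ j, (Y j).card ≤ p ^ 2 + k) : ∃ i, X i = ∅ := by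
  by_contra hne
  push Not at hne
  have hne' : ∀ i, 1 ≤ (X i).card := fun i => Finset.card_pos.2 (hne i)
  -- shifted sets
  have hsh : ∀ (W : Finset Γ) (s : Γ) (A : Finset Γ),
      (W.filter fun g => g + s ∈ A).card ≤ A.card := by
    intro W s A
    refine Finset.card_le_card_of_injOn (fun g => g + s) ?_ ?_
    · intro g hg
      simp only [coe_filter, Set.mem_ofPred_eq] at hg
      exact hg.2
    · intro g _ g' _ h
      exact add_right_cancel h
  have hcov : ∀ j, p ^ 2 ≤ (Y j).card + ∑ i, (X i).card := by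
    intro j
    rw [← hΓ, ← Finset.card_univ]
    calc (univ : Finset Γ).card
        ≤ (Y j ∪ univ.biUnion fun i => univ.filter fun g => g + σ i j ∈ X i).card := by
          refine Finset.card_le_card fun g _ => ?_
          simpa using hc j g
      _ ≤ _ := Finset.card_union_le _ _
      _ ≤ _ := by
          gcongr
          exact Finset.card_biUnion_le.trans (Finset.sum_le_sum fun i _ => hsh _ _ _)
  -- the good non-code fibres
  set K : Finset J := univ.filter fun j => Y j = ∅ with hK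
  have hbad : (univ.filter fun j => ¬ Y j = ∅).card ≤ ∑ j, (Y j).card := by
    rw [Finset.card_filter]
    refine Finset.sum_le_sum fun j _ => ?_
    split_ifs with h
    · exact Nat.zero_le _
    · exact Finset.card_pos.2 (Finset.nonempty_iff_ne_empty.2 h)
  have hsplit : K.card + (univ.filter fun j => ¬ Y j = ∅).card = Fintype.card J := by
    rw [hK, Finset.card_filter_add_card_filter_not, Finset.card_univ]
  have hu : ∑ j, (Y j).card ≤ k := by
    by_cases h0 : ∃ j, Y j = ∅
    · obtain ⟨j, hj⟩ := h0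
      have := hcov j
      rw [hj, Finset.card_empty] at this
      omega
    · push Not at h0
      exfalso
      have hJ0 : 0 < Fintype.card J := by omega
      obtain ⟨j⟩ := Fintype.card_pos_iff.1 hJ0
      have h1 := hcov j
      have h2 := Finset.add_sum_erase univ (fun j => (Y j).card) (mem_univ j)
      have h3 : (univ.erase j).card • 1 ≤ ∑ x ∈ univ.erase j, (Y x).card :=
        Finset.card_nsmul_le_sum _ _ _ fun x _ => Finset.card_pos.2 (h0 x)
      rw [Finset.card_erase_of_mem (mem_univ j), Finset.card_univ, smul_eq_mul, mul_one] at h3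
      have h4 : 8 * 2 ≤ 8 * (k + 2) * (k + 1) * (k + 1) := by
        calc 8 * 2 = 8 * 2 * 1 * 1 := by norm_num
          _ ≤ _ := by gcongr <;> omega
      omega
  have hKc : p ≤ K.card + k + 1 := by omega
  have hK0 : K.Nonempty := Finset.card_pos.1 (by omega)
  have hgood : ∀ j ∈ K, ∀ g, ∃ i, g + σ i j ∈ X i := by
    intro j hj g
    have hj' : Y j = ∅ := (Finset.mem_filter.1 hj).2
    rcases hc j g with h | h
    · rw [hj'] at h; simp at h
    · exact h
  obtain ⟨i0, -, hi0⟩ := Finset.exists_max_image univ (fun i => (X i).card) univ_nonempty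
  have hE : (univ.erase i0 : Finset (Fin (k + 2))).card = k + 1 := by
    rw [Finset.card_erase_of_mem (mem_univ _), Finset.card_univ, Fintype.card_fin]; rfl
  obtain ⟨i1, hi1m, hi1⟩ := Finset.exists_max_image (univ.erase i0) (fun i => (X i).card)
    (Finset.card_pos.1 (by omega))
  have hi10 : i1 ≠ i0 := (Finset.mem_erase.1 hi1m).1
  set Z : Finset Γ := (X i0)ᶜ with hZ
  have hZc : Z.card + (X i0).card = p ^ 2 := by
    rw [hZ, Finset.card_compl, hΓ]
    have := Finset.card_le_univ (X i0)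
    omega
  set S := ∑ i ∈ univ.erase i0, (X i).card with hS
  have hS0 : (X i0).card + S = ∑ i, (X i).card :=
    Finset.add_sum_erase univ (fun i => (X i).card) (mem_univ i0)
  have hS1 : S ≤ (k + 1) * (X i1).card := by
    have := Finset.sum_le_card_nsmul (univ.erase i0) (fun i => (X i).card) _ hi1
    rwa [hE, smul_eq_mul] at this
  have hS2 : S ≤ (k + 1) * (X i0).card := by
    have := Finset.sum_le_card_nsmul (univ.erase i0) (fun i => (X i).card) _
      fun i _ => hi0 i (mem_univ i)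
    rwa [hE, smul_eq_mul] at this
  have hS3 : k + 1 ≤ S := by
    have := Finset.card_nsmul_le_sum (univ.erase i0) (fun i => (X i).card) 1 fun i _ => hne' i
    rwa [hE, smul_eq_mul, mul_one] at this
  have hz : ∀ j ∈ K, ∀ z ∈ Z, ∃ i ∈ univ.erase i0, z + (σ i j - σ i0 j) ∈ X i := by
    intro j hj z hz
    obtain ⟨i, hi⟩ := hgood j hj (z - σ i0 j)
    refine ⟨i, Finset.mem_erase.2 ⟨?_, mem_univ _⟩, ?_⟩
    · rintro rfl
      rw [sub_add_cancel] at hi
      exact (Finset.mem_compl.1 hz) hi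
    · have : z + (σ i j - σ i0 j) = z - σ i0 j + σ i j := by abel
      rwa [this]
  have hl : ∀ j ∈ K, Z.card + (X i1).card ≤
      (Z.filter fun z => z + (σ i1 j - σ i0 j) ∈ X i1).card + S := by
    intro j hj
    have h1 : Z.card ≤ ∑ i ∈ univ.erase i0,
        (Z.filter fun z => z + (σ i j - σ i0 j) ∈ X i).card := by
      refine le_trans (Finset.card_le_card fun z hz' => ?_) Finset.card_biUnion_le
      obtain ⟨i, hi, h⟩ := hz j hj z hz'
      exact Finset.mem_biUnion.2 ⟨i, hi, Finset.mem_filter.2 ⟨hz', h⟩⟩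
    have h2 := Finset.add_sum_erase (univ.erase i0)
      (fun i => (Z.filter fun z => z + (σ i j - σ i0 j) ∈ X i).card) hi1m
    have h3 := Finset.add_sum_erase (univ.erase i0) (fun i => (X i).card) hi1m
    have h4 : ∑ i ∈ (univ.erase i0).erase i1,
        (Z.filter fun z => z + (σ i j - σ i0 j) ∈ X i).card ≤
        ∑ i ∈ (univ.erase i0).erase i1, (X i).card := Finset.sum_le_sum fun i _ => hsh _ _ _
    omega
  have hZS : Z.card ≤ S := by
    obtain ⟨j, hj⟩ := hK0
    have := hl j hj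
    have := hsh Z (σ i1 j - σ i0 j) (X i1)
    omega
  by_cases hy : (X i1).card ≤ 8 * (k + 2) * (k + 1)
  · -- few stray elements
    obtain ⟨z, hz'⟩ : Z.Nonempty := Finset.card_pos.1 (by omega)
    have h1 : K.card ≤ ∑ i ∈ univ.erase i0,
        (K.filter fun j => z + (σ i j - σ i0 j) ∈ X i).card := by
      refine le_trans (Finset.card_le_card fun j hj => ?_) Finset.card_biUnion_le
      obtain ⟨i, hi, h⟩ := hz j hj z hz'
      exact Finset.mem_biUnion.2 ⟨i, hi, Finset.mem_filter.2 ⟨hj, h⟩⟩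
    have h2 : ∑ i ∈ univ.erase i0, (K.filter fun j => z + (σ i j - σ i0 j) ∈ X i).card ≤ S := by
      refine Finset.sum_le_sum fun i hi => ?_
      refine Finset.card_le_card_of_injOn (fun j => z + (σ i j - σ i0 j)) ?_ ?_
      · intro j hj
        simp only [coe_filter, Set.mem_ofPred_eq] at hj
        exact hj.2
      · intro j _ j' _ h
        exact hinj i i0 (Finset.mem_erase.1 hi).1 (add_left_cancel h)
    have h3 : (k + 1) * (X i1).card ≤ 8 * (k + 2) * (k + 1) * (k + 1) := by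
      rw [mul_comm]; gcongr
    omega
  · have h1 := sidon (fun j => σ i1 j - σ i0 j) (hinj i1 i0 hi10) (hs i1 i0 hi10) K Z (X i1)
    set I := ∑ z ∈ Z, (K.filter fun j => z + (σ i1 j - σ i0 j) ∈ X i1).card with hI
    have h2 : I = ∑ j ∈ K, (Z.filter fun z => z + (σ i1 j - σ i0 j) ∈ X i1).card := by
      rw [hI]
      simp only [Finset.card_filter]
      exact Finset.sum_comm
    have h3 : K.card * (X i1).card ≤ I + K.card * k := by
      have : K.card • (X i1).card ≤
          ∑ j ∈ K, ((Z.filter fun z => z + (σ i1 j - σ i0 j) ∈ X i1).card + k) :=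
        Finset.card_nsmul_le_sum _ _ _ fun j hj => by
          have := hl j hj
          omega
      rwa [Finset.sum_add_distrib, ← h2, Finset.sum_const, smul_eq_mul, smul_eq_mul] at this
    have h4 : (k + 2) * Z.card ≤ (k + 1) * p ^ 2 := by
      rw [← hZc]; nlinarith
    have h5 : 8 * (k + 2) * (k + 1) ≤ p := by nlinarith
    refine numer (k + 1) k p (X i1).card Z.card K.card I (Nat.cast_nonneg _) rfl ?_ ?_ ?_ ?_ ?_ ?_
      h1
    · have : 8 * (k + 2) * (k + 1) ≤ (X i1).card := by omega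
      have : ((8 * (k + 2) * (k + 1) : ℕ) : ℝ) ≤ (X i1).card := by exact_mod_cast this
      push_cast at this; linarith
    · have : ((8 * (k + 2) * (k + 1) : ℕ) : ℝ) ≤ p := by exact_mod_cast h5
      push_cast at this; linarith
    · have : (p : ℝ) ≤ ((K.card + k + 1 : ℕ) : ℝ) := by exact_mod_cast hKc
      push_cast at this; linarith
    · have : ((K.card * (X i1).card : ℕ) : ℝ) ≤ ((I + K.card * k : ℕ) : ℝ) := by exact_mod_cast h3
      push_cast at this; linarith
    · have : (Z.card : ℝ) ≤ (((k + 1) * (X i1).card : ℕ) : ℝ) := by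
        exact_mod_cast hZS.trans hS1
      push_cast at this; linarith
    · have : (((k + 2) * Z.card : ℕ) : ℝ) ≤ (((k + 1) * p ^ 2 : ℕ) : ℝ) := by exact_mod_cast h4
      push_cast at this; linarith

end Pool.Agent.H.MP_a24849_co
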