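import Mathlib

set_option autoImplicit false

namespace Pool.Agent.H.MP_a24849_co

/-- `D` is dominating: every vertex outside `D` has a neighbour in `D`. -/
def Dominating {W : Type} (H : SimpleGraph W) (D : Finset W) : Prop :=
  ∀ x, x ∉ D → ∃ y ∈ D, H.Adj x y

/-- `D` is an accurate dominating set: it is dominating and its complement contains no
dominating set with exactly `|D|` elements. -/
def Accurate {W : Type} (H : SimpleGraph W) (D : Finset W) : Prop :=
  Dominating H D ∧ ¬ ∃ D' : Finset W, Disjoint D' D ∧ D'.card = D.card ∧ Dominating H D'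

/-- The accurate domination number: the least size of an accurate dominating set. -/
noncomputable def gammaA {W : Type} (H : SimpleGraph W) : ℕ :=
  sInf {n | ∃ D : Finset W, Accurate H D ∧ D.card = n}

/-- Each `P v` is a partition of the neighbourhood of `v` into nonempty blocks. -/
def IsPartFamily {V : Type} (G : SimpleGraph V) (P : V → Set (Set V)) : Prop :=
  ∀ v, (∀ A ∈ P v, A.Nonempty ∧ A ⊆ G.neighborSet v) ∧
    ∀ u ∈ G.neighborSet v, ∃! A, A ∈ P v ∧ u ∈ A

/-- The generating relation of the `P`-corona: `inl v` is `(v,1)`, `inr (v,A)` is `(v,A)`. -/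
def coronaRel {V : Type} (G : SimpleGraph V) (P : V → Set (Set V)) :
    V ⊕ {x : V × Set V // x.2 ∈ P x.1} → V ⊕ {x : V × Set V // x.2 ∈ P x.1} → Prop
  | Sum.inl v, Sum.inr b => b.1.1 = v
  | Sum.inr b, Sum.inr c => G.Adj b.1.1 c.1.1 ∧ c.1.1 ∈ b.1.2 ∧ b.1.1 ∈ c.1.2
  | _, _ => False

/-- The `P`-corona `G ∘ P`. -/
def corona {V : Type} (G : SimpleGraph V) (P : V → Set (Set V)) :
    SimpleGraph (V ⊕ {x : V × Set V // x.2 ∈ P x.1}) :=
  SimpleGraph.fromRel (coronaRel G P)

end Pool.Agent.H.MP_a24849_co
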