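import Pool.Agent.H.MP_a24849_co.A
import Pool.Agent.H.MP_a24849_co.Defs

set_option autoImplicit false

namespace Pool.Agent.H.MP_a24849_co

open Finset

/-- voltage data -/
structure Volt (Γ T : Type) [AddCommGroup Γ] where
  C : T → T → Prop
  t : T → T → Γ
  symm : ∀ a b, C a b → C b a
  irr : ∀ a, ¬ C a a
  anti : ∀ a b, C a b → t b a = - t a b
  inj : ∀ a b c d, C a b → C c d → t a b = t c d → a = c ∧ b = d
  ne : ∀ a, ∃ b, C a b

namespace Volt

variable {Γ T : Type} [AddCommGroup Γ] (E : Volt Γ T)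

theorem t_ne (a b : T) (h : E.C a b) : E.t a b ≠ 0 := by
  intro h0
  have h1 : E.t a b = E.t b a := by rw [E.anti a b h, h0, neg_zero]
  have := (E.inj a b b a h (E.symm a b h) h1).1
  subst this
  exact E.irr a h

def G : SimpleGraph Γ where
  Adj v u := ∃ a b, E.C a b ∧ u = v + E.t a b
  symm := ⟨by
    rintro v u ⟨a, b, h, rfl⟩
    exact ⟨b, a, E.symm a b h, by rw [E.anti a b h]; abel⟩⟩
  loopless := ⟨by
    rintro v ⟨a, b, h, h'⟩
    exact E.t_ne a b h (left_eq_add.1 h')⟩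

def blk (v : Γ) (a : T) : Set Γ := {u | ∃ b, E.C a b ∧ u = v + E.t a b}

def P (v : Γ) : Set (Set Γ) := Set.range (E.blk v)

theorem blk_eq {v u : Γ} {a a' : T} (h : u ∈ E.blk v a) (h' : u ∈ E.blk v a') : a = a' := by
  obtain ⟨b, hb, rfl⟩ := h
  obtain ⟨b', hb', e⟩ := h'
  exact (E.inj a b a' b' hb hb' (add_left_cancel e)).1

theorem blk_inj (v : Γ) : Function.Injective (E.blk v) := by
  intro a a' h
  obtain ⟨b, hb⟩ := E.ne a
  have h1 : v + E.t a b ∈ E.blk v a := ⟨b, hb, rfl⟩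
  exact E.blk_eq h1 (h ▸ h1)

theorem part : IsPartFamily E.G E.P := by
  intro v
  constructor
  · rintro A ⟨a, rfl⟩
    obtain ⟨b, hb⟩ := E.ne a
    exact ⟨⟨_, b, hb, rfl⟩, by rintro u ⟨b, hb, rfl⟩; exact ⟨a, b, hb, rfl⟩⟩
  · rintro u ⟨a, b, hb, rfl⟩
    refine ⟨E.blk v a, ⟨⟨a, rfl⟩, b, hb, rfl⟩, ?_⟩
    rintro A ⟨⟨a', rfl⟩, h⟩
    rw [E.blk_eq h ⟨b, hb, rfl⟩]

def ψ : Option T → Γ → Γ ⊕ {x : Γ × Set Γ // x.2 ∈ E.P x.1}
  | none, g => Sum.inl g
  | some a, g => Sum.inr ⟨(g, E.blk g a), a, rfl⟩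

theorem ψ_inj {u u' : Option T} {g g' : Γ} (h : E.ψ u g = E.ψ u' g') : u = u' ∧ g = g' := by
  rcases u with _ | a <;> rcases u' with _ | a'
  · exact ⟨rfl, Sum.inl_injective h⟩
  · exact absurd h Sum.inl_ne_inr
  · exact absurd h Sum.inr_ne_inl
  · have h1 : (g, E.blk g a) = (g', E.blk g' a') := congrArg Subtype.val (Sum.inr_injective h)
    obtain ⟨h2, h3⟩ := Prod.ext_iff.1 h1
    dsimp only at h2 h3
    subst h2
    exact ⟨by rw [E.blk_inj _ h3], rfl⟩

theorem ψ_surj (x : Γ ⊕ {x : Γ × Set Γ // x.2 ∈ E.P x.1}) : ∃ u g, x = E.ψ u g := by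
  rcases x with g | ⟨⟨g, A⟩, a, h⟩
  · exact ⟨none, g, rfl⟩
  · dsimp only at h
    subst h
    exact ⟨some a, g, rfl⟩

theorem adj1 (g : Γ) (a : T) : (corona E.G E.P).Adj (E.ψ none g) (E.ψ (some a) g) := by
  simp [corona, ψ, coronaRel]

theorem adj2 (g : Γ) (a b : T) (h : E.C a b) :
    (corona E.G E.P).Adj (E.ψ (some a) g) (E.ψ (some b) (g + E.t a b)) := by
  rw [corona, SimpleGraph.fromRel_adj]
  refine ⟨fun e => E.t_ne a b h (left_eq_add.1 (E.ψ_inj e).2), Or.inl ?_⟩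
  exact ⟨⟨a, b, h, rfl⟩, ⟨b, h, rfl⟩, a, E.symm a b h, by rw [E.anti a b h]; simp⟩

theorem nbr0 (g : Γ) (y : Γ ⊕ {x : Γ × Set Γ // x.2 ∈ E.P x.1})
    (h : (corona E.G E.P).Adj (E.ψ none g) y) : ∃ a, y = E.ψ (some a) g := by
  obtain ⟨u, g', rfl⟩ := E.ψ_surj y
  rw [corona, SimpleGraph.fromRel_adj] at h
  cases u with
  | none => simp [ψ, coronaRel] at h
  | some a =>
    have : g' = g := by simpa [ψ, coronaRel] using h
    exact ⟨a, by rw [this]⟩

theorem nbr1 (g : Γ) (a : T) (y : Γ ⊕ {x : Γ × Set Γ // x.2 ∈ E.P x.1})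
    (h : (corona E.G E.P).Adj (E.ψ (some a) g) y) :
    y = E.ψ none g ∨ ∃ b, E.C a b ∧ y = E.ψ (some b) (g + E.t a b) := by
  obtain ⟨u, g', rfl⟩ := E.ψ_surj y
  rw [corona, SimpleGraph.fromRel_adj] at h
  cases u with
  | none =>
    have : g = g' := by simpa [ψ, coronaRel] using h
    exact Or.inl (by rw [this])
  | some b =>
    have h' : g' ∈ E.blk g a ∧ g ∈ E.blk g' b := by
      rcases h.2 with h1 | h1
      · exact h1.2
      · exact ⟨h1.2.2, h1.2.1⟩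
    obtain ⟨⟨c, hc, rfl⟩, h2⟩ := h'
    have h3 : g ∈ E.blk (g + E.t a c) c := ⟨a, E.symm a c hc, by rw [E.anti a c hc]; simp⟩
    have := E.blk_eq h2 h3
    subst this
    exact Or.inr ⟨b, hc, rfl⟩

theorem lower [Fintype Γ] [Fintype T] (k : ℕ) (hk : k ≤ Fintype.card Γ)
    (hT : 3 ≤ Fintype.card T) (Code : Option T → Prop)
    (hC : ∀ a, Code (some a) → ∀ b, b ≠ a → E.C b a)
    (hR : ∀ D : Option T → Finset Γ, ∑ u, (D u).card ≤ Fintype.card Γ + k →
      (∀ a g, g ∈ D (some a) ∨ g ∈ D none ∨ ∃ b, E.C a b ∧ g + E.t a b ∈ D (some b)) →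
      ∃ u, Code u ∧ D u = ∅) :
    Fintype.card Γ + k < gammaA (corona E.G E.P) := by
  classical
  have : Fintype (Γ ⊕ {x : Γ × Set Γ // x.2 ∈ E.P x.1}) := Fintype.ofFinite _
  have hne : {n | ∃ D : Finset (Γ ⊕ {x : Γ × Set Γ // x.2 ∈ E.P x.1}),
      Accurate (corona E.G E.P) D ∧ D.card = n}.Nonempty := by
    refine ⟨_, univ, ⟨fun x hx => absurd (mem_univ x) hx, ?_⟩, rfl⟩
    rintro ⟨D', h1, h2, -⟩
    have : D' = ∅ := Finset.eq_empty_of_forall_notMem fun x hx =>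
      Finset.disjoint_left.1 h1 hx (mem_univ x)
    rw [this, Finset.card_empty, eq_comm, Finset.card_eq_zero] at h2
    exact absurd (h2 ▸ mem_univ (Sum.inl (0 : Γ))) (Finset.notMem_empty _)
  obtain ⟨D, ⟨hD, hacc⟩, hcard⟩ := Nat.sInf_mem hne
  by_contra hle
  have hle' : D.card ≤ Fintype.card Γ + k := by
    rw [hcard]; exact not_lt.1 hle
  apply hacc
  obtain ⟨u, hu, he⟩ := hR (fun u => univ.filter fun g => E.ψ u g ∈ D) (by
      refine le_trans ?_ hle'
      rw [← Finset.card_sigma]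
      refine Finset.card_le_card_of_injOn (fun w => E.ψ w.1 w.2) ?_ ?_
      · rintro ⟨u, g⟩ hw
        simpa using hw
      · rintro ⟨u, g⟩ _ ⟨u', g'⟩ _ h
        obtain ⟨rfl, rfl⟩ := E.ψ_inj h
        rfl) (by
      intro a g
      simp only [mem_filter, mem_univ, true_and]
      by_cases h : E.ψ (some a) g ∈ D
      · exact Or.inl h
      · obtain ⟨y, hy, hadj⟩ := hD _ h
        rcases E.nbr1 g a y hadj with rfl | ⟨b, hb, rfl⟩
        · exact Or.inr (Or.inl hy)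
        · exact Or.inr (Or.inr ⟨b, hb, hy⟩))
  have h1 : Fintype.card Γ ≤ D.card := by
    have : ∀ g, ∃ u, E.ψ u g ∈ D := by
      intro g
      by_cases h : E.ψ none g ∈ D
      · exact ⟨_, h⟩
      · obtain ⟨y, hy, hadj⟩ := hD _ h
        obtain ⟨a, rfl⟩ := E.nbr0 g y hadj
        exact ⟨_, hy⟩
    choose f hf using this
    rw [← Finset.card_univ]
    exact Finset.card_le_card_of_injOn (fun g => E.ψ (f g) g) (fun g _ => hf g)
      fun g _ g' _ h => (E.ψ_inj h).2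
  have h2 : D.card ≤ Dᶜ.card := by
    have : Fintype.card (Option T × Γ) ≤
        Fintype.card (Γ ⊕ {x : Γ × Set Γ // x.2 ∈ E.P x.1}) :=
      Fintype.card_le_of_injective (fun w => E.ψ w.1 w.2) fun w w' h =>
        Prod.ext (E.ψ_inj h).1 (E.ψ_inj h).2
    rw [Fintype.card_prod, Fintype.card_option] at this
    have h4 : 4 * Fintype.card Γ ≤ (Fintype.card T + 1) * Fintype.card Γ := by
      gcongr; omega
    rw [Finset.card_compl]
    omega
  have h3 : univ.image (E.ψ u) ⊆ Dᶜ := by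
    intro x hx
    obtain ⟨g, -, rfl⟩ := Finset.mem_image.1 hx
    rw [Finset.mem_compl]
    intro h
    have : g ∈ (univ.filter fun g => E.ψ u g ∈ D) := by simpa using h
    rw [he] at this
    exact Finset.notMem_empty _ this
  obtain ⟨D', hs1, hs2, hc⟩ := Finset.exists_subsuperset_card_eq h3
    (Finset.card_image_le.trans (by rw [Finset.card_univ]; exact h1)) h2
  refine ⟨D', Finset.disjoint_left.2 fun x hx => Finset.mem_compl.1 (hs2 hx), hc, ?_⟩
  intro x hx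
  have hm : ∀ g, E.ψ u g ∈ D' := fun g => hs1 (Finset.mem_image_of_mem _ (mem_univ g))
  obtain ⟨w, g, rfl⟩ := E.ψ_surj x
  have hw : w ≠ u := by rintro rfl; exact hx (hm g)
  cases u with
  | none =>
    cases w with
    | none => exact absurd rfl hw
    | some b => exact ⟨_, hm g, (E.adj1 g b).symm⟩
  | some a =>
    cases w with
    | none => exact ⟨_, hm g, E.adj1 g a⟩
    | some b => exact ⟨_, hm _, E.adj2 g b a (hC a hu b fun e => hw (by rw [e]))⟩

end Volt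

end Pool.Agent.H.MP_a24849_co
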