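import Pool.Agent.H.MP_a24849_co.B

set_option autoImplicit false

namespace Pool.Agent.H.MP_a24849_co

open Finset

def wN {n : ℕ} (i j : Fin n) : ℤ :=
  if i < j then (Nat.pair i j : ℤ) + 1 else - ((Nat.pair j i : ℤ) + 1)

theorem wN_anti {n : ℕ} (i j : Fin n) (h : i ≠ j) : wN j i = - wN i j := by
  unfold wN
  rcases lt_or_gt_of_ne h with h | h
  · rw [if_pos h, if_neg (not_lt.2 h.le)]
  · rw [if_pos h, if_neg (not_lt.2 h.le), neg_neg]

theorem pair_lt {n : ℕ} (i j : Fin n) : Nat.pair i j < n ^ 2 := by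
  refine lt_of_lt_of_le (Nat.pair_lt_max_add_one_sq i j) ?_
  have := i.2
  have := j.2
  gcongr
  omega

theorem wN_bd {n : ℕ} (i j : Fin n) : |wN i j| ≤ (n : ℤ) ^ 2 := by
  have h1 : (Nat.pair i j : ℤ) < (n : ℤ) ^ 2 := by exact_mod_cast pair_lt i j
  have h2 : (Nat.pair j i : ℤ) < (n : ℤ) ^ 2 := by exact_mod_cast pair_lt j i
  unfold wN
  rw [abs_le]
  split_ifs <;> constructor <;> omega

theorem wN_inj {n : ℕ} (i j i' j' : Fin n) (h : wN i j = wN i' j') : i = i' ∧ j = j' := by
  unfold wN at h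
  split_ifs at h
  · have : Nat.pair i j = Nat.pair i' j' := by omega
    have := Nat.pair_eq_pair.1 this
    exact ⟨Fin.ext this.1, Fin.ext this.2⟩
  · omega
  · omega
  · have : Nat.pair j i = Nat.pair j' i' := by omega
    have := Nat.pair_eq_pair.1 this
    exact ⟨Fin.ext this.2, Fin.ext this.1⟩

theorem cast_inj {p : ℕ} (a b : ℤ) (h : |a - b| < p) (e : (a : ZMod p) = b) : a = b := by
  have h1 : (p : ℤ) ∣ a - b := ((ZMod.intCast_eq_intCast_iff_dvd_sub b a p).1 e.symm)
  have := Int.eq_zero_of_abs_lt_dvd h1 h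
  omega

theorem parab {F : Type} [Field F] (c c' s s' : F) (hc : c ≠ 0) (hs : s ≠ 0)
    (h1 : c * s = c' * s') (h2 : c * s ^ 2 = c' * s' ^ 2) : s = s' ∧ c = c' := by
  have e : s = s' := by
    have : (c * s) * (s - s') = 0 := by linear_combination h2 - s' * h1
    rcases mul_eq_zero.1 this with h | h
    · exact absurd h (mul_ne_zero hc hs)
    · exact sub_eq_zero.1 h
  subst e
  exact ⟨rfl, mul_right_cancel₀ hs h1⟩

variable (k p : ℕ)

abbrev TT := Fin (k + 1) ⊕ {s : ZMod p // s ≠ 0}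

def CC : TT k p → TT k p → Prop
  | Sum.inl i, Sum.inl j => i ≠ j
  | Sum.inl _, Sum.inr _ => True
  | Sum.inr _, Sum.inl _ => True
  | Sum.inr _, Sum.inr _ => False

def tt : TT k p → TT k p → ZMod p × ZMod p
  | Sum.inl i, Sum.inl j => (0, (wN i j : ZMod p))
  | Sum.inl i, Sum.inr s =>
      (((-((i : ℤ) + 1) : ℤ) : ZMod p) * s.1, ((-((i : ℤ) + 1) : ℤ) : ZMod p) * s.1 ^ 2)
  | Sum.inr s, Sum.inl i => ((((i : ℤ) + 1 : ℤ) : ZMod p) * s.1, (((i : ℤ) + 1 : ℤ) : ZMod p) * s.1 ^ 2)
  | Sum.inr _, Sum.inr _ => 0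

def volt [Fact p.Prime] (hp : 2 * (k + 1) ^ 2 + 2 * k + 2 < p) :
    Volt (ZMod p × ZMod p) (TT k p) where
  C := CC k p
  t := tt k p
  symm := by
    rintro (i | s) (j | s') h
    · exact Ne.symm h
    all_goals exact h
  irr := by
    rintro (i | s) h
    · exact h rfl
    · exact h
  anti := by
    rintro (i | s) (j | s') h
    · simp [tt, wN_anti i j h]
    · simp only [tt, Prod.neg_mk, Prod.mk.injEq]; push_cast; constructor <;> ring
    · simp only [tt, Prod.neg_mk, Prod.mk.injEq]; push_cast; constructor <;> ring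
    · exact absurd h id
  inj := by
    have hp' : 2 * ((k : ℤ) + 1) ^ 2 + 2 * k + 2 < p := by exact_mod_cast hp
    have hk : (0 : ℤ) ≤ ((k : ℤ) + 1) ^ 2 := sq_nonneg _
    have nz : ∀ a : ℤ, a ≠ 0 → |a| ≤ k + 1 → (a : ZMod p) ≠ 0 := by
      intro a ha hb h
      refine ha (cast_inj (p := p) a 0 ?_ (by simpa using h))
      rw [sub_zero]; omega
    have ci : ∀ a b : ℤ, |a| ≤ k + 1 → |b| ≤ k + 1 → (a : ZMod p) = b → a = b := by
      intro a b ha hb h
      refine cast_inj (p := p) a b ?_ h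
      rw [abs_le] at ha hb
      rw [abs_lt]; constructor <;> omega
    have b1 : ∀ i : Fin (k + 1), |(i : ℤ) + 1| ≤ k + 1 := by
      intro i; have := i.2; rw [abs_le]; constructor <;> omega
    have b2 : ∀ i : Fin (k + 1), |-((i : ℤ) + 1)| ≤ k + 1 := by
      intro i; rw [abs_neg]; exact b1 i
    have n1 : ∀ i : Fin (k + 1), (((i : ℤ) + 1 : ℤ) : ZMod p) ≠ 0 :=
      fun i => nz _ (by omega) (b1 i)
    have n2 : ∀ i : Fin (k + 1), ((-((i : ℤ) + 1) : ℤ) : ZMod p) ≠ 0 :=
      fun i => nz _ (by omega) (b2 i)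
    rintro (i | s) (j | s') (i' | r) (j' | r') h h' e <;>
      simp only [tt, Prod.mk.injEq] at e <;> try exact absurd h' id
    · have h1 := wN_bd i j
      have h2 := wN_bd i' j'
      have : wN i j = wN i' j' := by
        refine cast_inj (p := p) _ _ ?_ e.2
        rw [abs_le] at h1 h2
        push_cast at h1 h2
        rw [abs_lt]; constructor <;> omega
      obtain ⟨rfl, rfl⟩ := wN_inj _ _ _ _ this
      exact ⟨rfl, rfl⟩
    · exact absurd e.1.symm (mul_ne_zero (n2 _) r'.2)
    · exact absurd e.1.symm (mul_ne_zero (n1 _) r.2)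
    · exact absurd e.1 (mul_ne_zero (n2 _) s'.2)
    · obtain ⟨h1, h2⟩ := parab _ _ _ _ (n2 _) s'.2 e.1 e.2
      have := ci _ _ (b2 _) (b2 _) h2
      exact ⟨congrArg _ (Fin.ext (by omega)), congrArg _ (Subtype.ext h1)⟩
    · obtain ⟨h1, h2⟩ := parab _ _ _ _ (n2 _) s'.2 e.1 e.2
      have := ci _ _ (b2 _) (b1 _) h2
      omega
    · exact absurd e.1 (mul_ne_zero (n1 _) s.2)
    · obtain ⟨h1, h2⟩ := parab _ _ _ _ (n1 _) s.2 e.1 e.2
      have := ci _ _ (b1 _) (b2 _) h2
      omega
    · obtain ⟨h1, h2⟩ := parab _ _ _ _ (n1 _) s.2 e.1 e.2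
      have := ci _ _ (b1 _) (b1 _) h2
      exact ⟨congrArg _ (Subtype.ext h1), congrArg _ (Fin.ext (by omega))⟩
    all_goals exact absurd h id
  ne := by
    rintro (i | s)
    · exact ⟨Sum.inr ⟨1, one_ne_zero⟩, trivial⟩
    · exact ⟨Sum.inl 0, trivial⟩

theorem main (k : ℕ) : ∃ (V : Type) (_ : Fintype V) (G : SimpleGraph V) (P : V → Set (Set V)),
    IsPartFamily G P ∧ Fintype.card V + k < gammaA (corona G P) := by
  classical
  obtain ⟨p, hp, hpr⟩ := Nat.exists_infinite_primes (8 * (k + 2) * (k + 1) * (k + 1) + k + 2)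
  have : Fact p.Prime := ⟨hpr⟩
  have hp1 : 2 * (k + 1) ^ 2 + 2 * k + 2 < p := by nlinarith [Nat.zero_le (k ^ 3), Nat.zero_le (k ^ 2)]
  have hΓ : Fintype.card (ZMod p × ZMod p) = p ^ 2 := by simp [sq]
  have hJ : Fintype.card {s : ZMod p // s ≠ 0} + 1 = p := by
    rw [Fintype.card_subtype_compl, ZMod.card, Fintype.card_unique]
    omega
  have hkp : k + 2 < p := by nlinarith
  refine ⟨ZMod p × ZMod p, inferInstance, (volt k p hp1).G, (volt k p hp1).P,
    (volt k p hp1).part, ?_⟩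
  refine (volt k p hp1).lower k (by rw [hΓ]; nlinarith) ?_
    (fun u => u = none ∨ ∃ i, u = some (Sum.inl i)) ?_ ?_
  · rw [Fintype.card_sum, Fintype.card_fin]; omega
  · rintro a (h | ⟨i, h⟩) b hb
    · simp at h
    · obtain rfl := Option.some_injective _ h
      rcases b with j | s
      · exact fun e => hb (congrArg _ e)
      · trivial
  · intro D hsum hcov
    have hci : ∀ i i' : Fin (k + 2), i ≠ i' → ((i : ℕ) : ZMod p) - ((i' : ℕ) : ZMod p) ≠ 0 := by
      intro i i' h e
      have e' : (((i : ℕ) : ℤ) : ZMod p) = (((i' : ℕ) : ℤ) : ZMod p) := by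
        simpa using sub_eq_zero.1 e
      have h1 := i.2
      have h2 := i'.2
      have := cast_inj (p := p) _ _ (by rw [abs_lt]; constructor <;> omega) e'
      exact h (Fin.ext (by omega))
    have h2 : (2 : ZMod p) ≠ 0 := by
      intro e
      have := cast_inj (p := p) 2 0 (by rw [abs_lt]; constructor <;> omega) (by simpa using e)
      omega
    obtain ⟨i, hi⟩ := rigid (J := {s : ZMod p // s ≠ 0}) k p hΓ hJ.ge (by omega)
      (fun i s => (((i : ℕ) : ZMod p) * s.1, ((i : ℕ) : ZMod p) * s.1 ^ 2))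
      (by
        intro i i' h s s' e
        simp only [Prod.mk_sub_mk, Prod.mk.injEq] at e
        have : (((i : ℕ) : ZMod p) - ((i' : ℕ) : ZMod p)) * (s.1 - s'.1) = 0 := by
          linear_combination e.1
        exact Subtype.ext (sub_eq_zero.1 ((mul_eq_zero.1 this).resolve_left (hci i i' h))))
      (by
        intro i i' h s1 s2 s3 s4 hne e
        simp only [Prod.mk_sub_mk, Prod.mk.injEq] at e
        have hc := hci i i' h
        have e1 : s1.1 - s2.1 = s3.1 - s4.1 :=
          mul_left_cancel₀ hc (by linear_combination e.1)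
        have e2 : s1.1 ^ 2 - s2.1 ^ 2 = s3.1 ^ 2 - s4.1 ^ 2 :=
          mul_left_cancel₀ hc (by linear_combination e.2)
        have hd : s1.1 - s2.1 ≠ 0 := fun h0 => hne (Subtype.ext (sub_eq_zero.1 h0))
        have e3 : s1.1 + s2.1 = s3.1 + s4.1 :=
          mul_left_cancel₀ hd (by linear_combination e2 - (s3.1 + s4.1) * e1)
        exact Subtype.ext (mul_left_cancel₀ h2 (by linear_combination e1 + e3)))
      (Fin.cases (D none) fun i => D (some (Sum.inl i))) (fun s => D (some (Sum.inr s)))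
      (by
        intro s g
        rcases hcov (Sum.inr s) g with h | h | ⟨b, hb, h⟩
        · exact Or.inl h
        · exact Or.inr ⟨0, by simpa [Prod.mk_zero_zero] using h⟩
        · rcases b with i | r
          · refine Or.inr ⟨i.succ, ?_⟩
            simpa [volt, tt] using h
          · exact absurd hb id)
      (by
        rw [Fintype.sum_option, Fintype.sum_sum_type, hΓ] at hsum
        rw [Fin.sum_univ_succ]
        simp only [Fin.cases_zero, Fin.cases_succ]
        omega)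
    induction i using Fin.cases with
    | zero => exact ⟨none, Or.inl rfl, hi⟩
    | succ i => exact ⟨_, Or.inr ⟨i, rfl⟩, hi⟩

end Pool.Agent.H.MP_a24849_co
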